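import Pool.Agent.T9h24.Ft.Spec2

/-!
# Piece (P2) of `T9h24.Ft` for homogeneous `I` (helper31)

(`StBdP` itself is false for inhomogeneous `I`: `I = (X₂ - X₀³ X₁)`, `g = X₁`, `P = X₂`.)
-/

set_option autoImplicit false

open MvPolynomial Module

namespace Pool.Agent.T9h31.Ft

open Pool.Agent.T9h24.Ft

/-- the piece, with the vanishing on the cone -/
def StBdPC : Prop := ∀ (n q T d : ℕ) (a e : Fin q → ℕ)
  (I : Ideal (MvPolynomial (Fin (n + 1)) (AlgebraicClosure ℚ)))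
  (g : Fin q → Fin T → MvPolynomial (Fin (n + 1)) (AlgebraicClosure ℚ)),
  (∀ i t, (g i t).IsHomogeneous (a i)) →
  ∀ P : MvPolynomial (Fin (n + 1)) (AlgebraicClosure ℚ), P.IsHomogeneous d →
  P ∈ sat ((∏ i, (Ideal.span (Set.range (g i))) ^ e i) ⊔ I) →
  ∀ (F : Type) [NormedField F] [CharZero F] [IsAlgClosed F], ∃ A : ℝ, 1 ≤ A ∧
    ∀ (j : AlgebraicClosure ℚ →+* F) (y : Fin (n + 1) → F), y ≠ 0 →
    (∀ c : F, ∀ Q ∈ I, eval (c • y) (map j Q) = 0) →
    ‖eval y (map j P)‖ ≤ A * ‖y‖ ^ d * Real.exp (-∑ i, (e i : ℝ) *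
      max 0 (Real.log (‖y‖ ^ a i / ‖fun t => eval y (map j (g i t))‖)))

/-- the piece, for homogeneous `I` -/
def StBdPH : Prop := ∀ (n q T d : ℕ) (a e : Fin q → ℕ)
  (I : Ideal (MvPolynomial (Fin (n + 1)) (AlgebraicClosure ℚ)))
  (g : Fin q → Fin T → MvPolynomial (Fin (n + 1)) (AlgebraicClosure ℚ)),
  (∀ Q ∈ I, ∀ k, homogeneousComponent k Q ∈ I) →
  (∀ i t, (g i t).IsHomogeneous (a i)) →
  ∀ P : MvPolynomial (Fin (n + 1)) (AlgebraicClosure ℚ), P.IsHomogeneous d →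
  P ∈ sat ((∏ i, (Ideal.span (Set.range (g i))) ^ e i) ⊔ I) →
  ∀ (F : Type) [NormedField F] [CharZero F] [IsAlgClosed F], ∃ A : ℝ, 1 ≤ A ∧
    ∀ (j : AlgebraicClosure ℚ →+* F) (y : Fin (n + 1) → F), y ≠ 0 →
    (∀ Q ∈ I, eval y (map j Q) = 0) →
    ‖eval y (map j P)‖ ≤ A * ‖y‖ ^ d * Real.exp (-∑ i, (e i : ℝ) *
      max 0 (Real.log (‖y‖ ^ a i / ‖fun t => eval y (map j (g i t))‖)))

variable {F : Type} [NormedField F] [CharZero F] [IsAlgClosed F] {n : ℕ}

lemma bd_all (P : MvPolynomial (Fin (n + 1)) (AlgebraicClosure ℚ)) :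
    ∃ A : ℝ, 0 ≤ A ∧ ∀ (j : AlgebraicClosure ℚ →+* F) (y : Fin (n + 1) → F), ‖y‖ ≤ 1 →
      ‖eval y (map j P)‖ ≤ A := by
  induction P using MvPolynomial.induction_on with
  | C a =>
    obtain ⟨B, hB1, hB⟩ := Pool.Agent.T9h24.embed_bound (F := F) a
    refine ⟨B, by linarith, fun j y _ => ?_⟩
    rw [map_C, eval_C]
    exact hB j
  | add p q hp hq =>
    obtain ⟨A, hA0, hA⟩ := hp
    obtain ⟨B, hB0, hB⟩ := hq
    refine ⟨A + B, by positivity, fun j y hy => ?_⟩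
    rw [map_add, map_add]
    exact (norm_add_le _ _).trans (add_le_add (hA j y hy) (hB j y hy))
  | mul_X p i hp =>
    obtain ⟨A, hA0, hA⟩ := hp
    refine ⟨A, hA0, fun j y hy => ?_⟩
    rw [map_mul, map_mul, map_X, eval_X, norm_mul]
    have h1 : ‖y i‖ ≤ 1 := (norm_le_pi_norm y i).trans hy
    calc ‖eval y (map j p)‖ * ‖y i‖ ≤ A * 1 :=
          mul_le_mul (hA j y hy) h1 (norm_nonneg _) hA0
      _ = A := mul_one A

/-- the ideal of the polynomials which are bounded by `φ` on the zeros of `I` -/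
def good (I : Ideal (MvPolynomial (Fin (n + 1)) (AlgebraicClosure ℚ)))
    (φ : (AlgebraicClosure ℚ →+* F) → (Fin (n + 1) → F) → ℝ) (hφ : ∀ j y, 0 ≤ φ j y) :
    Ideal (MvPolynomial (Fin (n + 1)) (AlgebraicClosure ℚ)) where
  carrier := {P | ∃ A : ℝ, 0 ≤ A ∧ ∀ (j : AlgebraicClosure ℚ →+* F) (y : Fin (n + 1) → F),
    ‖y‖ ≤ 1 → (∀ Q ∈ I, eval y (map j Q) = 0) → ‖eval y (map j P)‖ ≤ A * φ j y}
  zero_mem' := ⟨0, le_rfl, fun j y _ _ => by simp⟩
  add_mem' := by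
    rintro P Q ⟨A, hA0, hA⟩ ⟨B, hB0, hB⟩
    refine ⟨A + B, by positivity, fun j y hy hI => ?_⟩
    rw [map_add, map_add, add_mul]
    exact (norm_add_le _ _).trans (add_le_add (hA j y hy hI) (hB j y hy hI))
  smul_mem' := by
    rintro c P ⟨A, hA0, hA⟩
    obtain ⟨B, hB0, hB⟩ := bd_all (F := F) c
    refine ⟨B * A, by positivity, fun j y hy hI => ?_⟩
    rw [smul_eq_mul, map_mul, map_mul, norm_mul, mul_assoc]
    exact mul_le_mul (hB j y hy) (hA j y hy hI) (norm_nonneg _) hB0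

lemma le_good (I : Ideal (MvPolynomial (Fin (n + 1)) (AlgebraicClosure ℚ)))
    (φ : (AlgebraicClosure ℚ →+* F) → (Fin (n + 1) → F) → ℝ) (hφ : ∀ j y, 0 ≤ φ j y) :
    I ≤ good I φ hφ := by
  intro P hP
  refine ⟨0, le_rfl, fun j y _ hI => ?_⟩
  rw [hI P hP, norm_zero, zero_mul]

lemma mul_good {I J J' : Ideal (MvPolynomial (Fin (n + 1)) (AlgebraicClosure ℚ))}
    {φ ψ : (AlgebraicClosure ℚ →+* F) → (Fin (n + 1) → F) → ℝ} (hφ : ∀ j y, 0 ≤ φ j y)
    (hψ : ∀ j y, 0 ≤ ψ j y) (h1 : J ≤ good I φ hφ) (h2 : J' ≤ good I ψ hψ) :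
    J * J' ≤ good I (fun j y => φ j y * ψ j y) (fun j y => mul_nonneg (hφ j y) (hψ j y)) := by
  rw [Ideal.mul_le]
  intro P hP Q hQ
  obtain ⟨A, hA0, hA⟩ := h1 hP
  obtain ⟨B, hB0, hB⟩ := h2 hQ
  refine ⟨A * B, by positivity, fun j y hy hI => ?_⟩
  rw [map_mul, map_mul, norm_mul]
  calc ‖eval y (map j P)‖ * ‖eval y (map j Q)‖ ≤ (A * φ j y) * (B * ψ j y) :=
        mul_le_mul (hA j y hy hI) (hB j y hy hI) (norm_nonneg _) (mul_nonneg hA0 (hφ j y))
    _ = A * B * (φ j y * ψ j y) := by ring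

lemma pow_good {I J : Ideal (MvPolynomial (Fin (n + 1)) (AlgebraicClosure ℚ))}
    {φ : (AlgebraicClosure ℚ →+* F) → (Fin (n + 1) → F) → ℝ} (hφ : ∀ j y, 0 ≤ φ j y)
    (h1 : J ≤ good I φ hφ) (e : ℕ) :
    J ^ e ≤ good I (fun j y => φ j y ^ e) (fun j y => pow_nonneg (hφ j y) e) := by
  induction e with
  | zero =>
    intro P _
    obtain ⟨A, hA0, hA⟩ := bd_all (F := F) P
    refine ⟨A, hA0, fun j y hy _ => ?_⟩
    simpa using hA j y hy
  | succ e ih =>
    rw [pow_succ]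
    refine (mul_good _ _ ih h1).trans (le_of_eq ?_)
    congr 1

lemma prod_good {ι : Type*} (s : Finset ι) {I : Ideal (MvPolynomial (Fin (n + 1)) (AlgebraicClosure ℚ))}
    {J : ι → Ideal (MvPolynomial (Fin (n + 1)) (AlgebraicClosure ℚ))}
    {φ : ι → (AlgebraicClosure ℚ →+* F) → (Fin (n + 1) → F) → ℝ} (hφ : ∀ i j y, 0 ≤ φ i j y)
    (h1 : ∀ i, J i ≤ good I (φ i) (hφ i)) :
    ∏ i ∈ s, J i ≤ good I (fun j y => ∏ i ∈ s, φ i j y)
      (fun j y => Finset.prod_nonneg fun i _ => hφ i j y) := by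
  classical
  induction s using Finset.induction_on with
  | empty =>
    intro P _
    obtain ⟨A, hA0, hA⟩ := bd_all (F := F) P
    refine ⟨A, hA0, fun j y hy _ => ?_⟩
    simpa using hA j y hy
  | insert i s hi ih =>
    rw [Finset.prod_insert hi]
    refine (mul_good _ _ (h1 i) ih).trans (le_of_eq ?_)
    congr 1
    ext j y
    rw [Finset.prod_insert hi]

lemma span_good {T : ℕ} (I : Ideal (MvPolynomial (Fin (n + 1)) (AlgebraicClosure ℚ)))
    (g : Fin T → MvPolynomial (Fin (n + 1)) (AlgebraicClosure ℚ)) :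
    Ideal.span (Set.range g) ≤ good (F := F) I
      (fun j y => ‖fun t => eval y (map j (g t))‖) (fun _ _ => norm_nonneg _) := by
  rw [Ideal.span_le]
  rintro _ ⟨t, rfl⟩
  refine ⟨1, zero_le_one, fun j y _ _ => ?_⟩
  rw [one_mul]
  exact norm_le_pi_norm (fun t => eval y (map j (g t))) t

lemma exists_coord (y : Fin (n + 1) → F) : ∃ l, ‖y l‖ = ‖y‖ := by
  obtain ⟨l, hl⟩ := Finite.exists_max fun i => ‖y i‖
  refine ⟨l, le_antisymm (norm_le_pi_norm y l) ?_⟩
  exact (pi_norm_le_iff_of_nonneg (norm_nonneg _)).2 hl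

lemma eval_smul_hom {P : MvPolynomial (Fin (n + 1)) (AlgebraicClosure ℚ)} {d : ℕ}
    (hP : P.IsHomogeneous d) (j : AlgebraicClosure ℚ →+* F) (c : F) (y : Fin (n + 1) → F) :
    eval (c • y) (map j P) = c ^ d * eval y (map j P) := by
  rw [eval_eq, eval_eq, Finset.mul_sum]
  refine Finset.sum_congr rfl fun m hm => ?_
  have h1 : m.degree = d := by
    have := (hP.map j) (mem_support_iff.1 hm)
    rw [Finsupp.weight_apply] at this
    rw [Finsupp.degree_apply, ← this]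
    simp [Finsupp.sum]
  simp only [Pi.smul_apply, smul_eq_mul, mul_pow]
  rw [Finset.prod_mul_distrib]
  have h2 : ∏ i ∈ m.support, c ^ m i = c ^ d := by
    rw [Finset.prod_pow_eq_pow_sum, ← h1]
    rfl
  rw [h2]
  ring


theorem stBdPC : StBdPC := by
  intro n q T d a e I g hg P hP hPs F _ _ _
  classical
  -- bounds of the `g i t`
  have hB : ∀ i : Fin q, ∃ B : ℝ, 1 ≤ B ∧ ∀ (j : AlgebraicClosure ℚ →+* F) (y : Fin (n + 1) → F),
      ‖y‖ ≤ 1 → ‖fun t => eval y (map j (g i t))‖ ≤ B := by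
    intro i
    choose A hA0 hA using fun t => bd_all (F := F) (g i t)
    refine ⟨1 + ∑ t, A t, by linarith [Finset.sum_nonneg fun t (_ : t ∈ Finset.univ) => hA0 t],
      fun j y hy => ?_⟩
    refine (pi_norm_le_iff_of_nonneg
      (by linarith [Finset.sum_nonneg fun t (_ : t ∈ Finset.univ) => hA0 t])).2 fun t => ?_
    have h1 := Finset.single_le_sum (f := A) (fun t _ => hA0 t) (Finset.mem_univ t)
    linarith [hA t j y hy]
  choose B hB1 hB using hB
  -- the bound of `P` at the points with `y l = 1`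
  have hA : ∀ l : Fin (n + 1), ∃ A : ℝ, 0 ≤ A ∧
      ∀ (j : AlgebraicClosure ℚ →+* F) (y : Fin (n + 1) → F), ‖y‖ ≤ 1 → y l = 1 →
      (∀ Q ∈ I, eval y (map j Q) = 0) →
      ‖eval y (map j P)‖ ≤ A * ∏ i, ‖fun t => eval y (map j (g i t))‖ ^ e i := by
    intro l
    obtain ⟨M, hM⟩ := hPs
    have hle : (∏ i, (Ideal.span (Set.range (g i))) ^ e i) ⊔ I ≤
        good (F := F) I (fun j y => ∏ i, ‖fun t => eval y (map j (g i t))‖ ^ e i)
          (fun j y => Finset.prod_nonneg fun i _ => pow_nonneg (norm_nonneg _) _) := by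
      refine sup_le ?_ (le_good _ _ _)
      exact prod_good (F := F) Finset.univ
        (φ := fun i j y => ‖fun t => eval y (map j (g i t))‖ ^ e i)
        (fun i j y => pow_nonneg (norm_nonneg _) _)
        (fun i => pow_good _ (span_good I (g i)) (e i))
    obtain ⟨A, hA0, hA⟩ := hle (hM l)
    refine ⟨A, hA0, fun j y hy hyl hI => ?_⟩
    have h1 := hA j y hy hI
    rwa [map_mul, map_mul, map_pow, map_pow, map_X, eval_X, hyl, one_pow, one_mul] at h1
  choose A hA0 hA using hA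
  have hB0 : ∀ i, 0 ≤ B i := fun i => zero_le_one.trans (hB1 i)
  have hBp : 0 ≤ ∏ i, B i ^ e i := Finset.prod_nonneg fun i _ => pow_nonneg (hB0 i) _
  refine ⟨1 + (∑ l, A l) * ∏ i, B i ^ e i, ?_, ?_⟩
  · have : 0 ≤ (∑ l, A l) * ∏ i, B i ^ e i :=
      mul_nonneg (Finset.sum_nonneg fun l _ => hA0 l) hBp
    linarith
  intro j y hy0 hI
  obtain ⟨l, hl⟩ := exists_coord y
  have hny : 0 < ‖y‖ := norm_pos_iff.2 hy0
  have hyl : y l ≠ 0 := by
    rw [← norm_pos_iff, hl]; exact hny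
  set c : F := (y l)⁻¹ with hc
  set z : Fin (n + 1) → F := c • y with hz
  have hyz : y = y l • z := by
    rw [hz, hc, smul_smul, mul_inv_cancel₀ hyl, one_smul]
  have hzn : ‖z‖ ≤ 1 := by
    rw [hz, norm_smul, hc, norm_inv, hl, inv_mul_cancel₀ hny.ne']
  have hzl : z l = 1 := by
    rw [hz, Pi.smul_apply, smul_eq_mul, hc, inv_mul_cancel₀ hyl]
  have hIz : ∀ Q ∈ I, eval z (map j Q) = 0 := fun Q hQ => hI c Q hQ
  have hPy : ‖eval y (map j P)‖ = ‖y‖ ^ d * ‖eval z (map j P)‖ := by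
    conv_lhs => rw [hyz]
    rw [eval_smul_hom hP, norm_mul, norm_pow, hl]
  have hgy : ∀ i, ‖fun t => eval y (map j (g i t))‖ =
      ‖y‖ ^ a i * ‖fun t => eval z (map j (g i t))‖ := by
    intro i
    have h1 : (fun t => eval y (map j (g i t))) =
        (y l) ^ a i • fun t => eval z (map j (g i t)) := by
      funext t
      conv_lhs => rw [hyz]
      rw [eval_smul_hom (hg i t), Pi.smul_apply, smul_eq_mul]
    rw [h1, norm_smul, norm_pow, hl]
  -- one factor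
  have hfac : ∀ i, ‖fun t => eval z (map j (g i t))‖ ≤
      B i * Real.exp (-max 0 (Real.log (‖y‖ ^ a i / ‖fun t => eval y (map j (g i t))‖))) := by
    intro i
    rw [hgy i]
    set r := ‖fun t => eval z (map j (g i t))‖ with hr
    have hr0 : 0 ≤ r := norm_nonneg _
    have hrB : r ≤ B i := hB i j z hzn
    have hya : 0 < ‖y‖ ^ a i := pow_pos hny _
    rcases hr0.eq_or_lt with h0 | h0
    · rw [← h0]
      exact mul_nonneg (zero_le_one.trans (hB1 i)) (Real.exp_nonneg _)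
    · rw [div_mul_eq_div_div, div_self hya.ne', one_div, Real.log_inv]
      rcases le_total (Real.log r) 0 with h2 | h2
      · rw [max_eq_right (by linarith), neg_neg, Real.exp_log h0]
        nlinarith [hB1 i]
      · rw [max_eq_left (by linarith), neg_zero, Real.exp_zero, mul_one]
        exact hrB
  have hprod : ∏ i, ‖fun t => eval z (map j (g i t))‖ ^ e i ≤
      (∏ i, B i ^ e i) * Real.exp (-∑ i, (e i : ℝ) *
      max 0 (Real.log (‖y‖ ^ a i / ‖fun t => eval y (map j (g i t))‖))) := by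
    rw [← Finset.sum_neg_distrib, Real.exp_sum, ← Finset.prod_mul_distrib]
    refine Finset.prod_le_prod (fun i _ => pow_nonneg (norm_nonneg _) _) fun i _ => ?_
    refine (pow_le_pow_left₀ (norm_nonneg _) (hfac i) (e i)).trans (le_of_eq ?_)
    rw [mul_pow, ← Real.exp_nat_mul]
    congr 2
    ring
  have hP1 := hA l j z hzn hzl hIz
  have hAl : A l ≤ ∑ l, A l := Finset.single_le_sum (f := A) (fun l _ => hA0 l) (Finset.mem_univ l)
  rw [hPy]
  set E := Real.exp (-∑ i, (e i : ℝ) *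
      max 0 (Real.log (‖y‖ ^ a i / ‖fun t => eval y (map j (g i t))‖))) with hE
  have hE0 : 0 ≤ E := Real.exp_nonneg _
  have h3 : ‖eval z (map j P)‖ ≤ (∑ l, A l) * ((∏ i, B i ^ e i) * E) :=
    hP1.trans (mul_le_mul hAl hprod
      (Finset.prod_nonneg fun i _ => pow_nonneg (norm_nonneg _) _)
      (Finset.sum_nonneg fun l _ => hA0 l))
  have hd : 0 ≤ ‖y‖ ^ d := by positivity
  calc ‖y‖ ^ d * ‖eval z (map j P)‖ ≤ ‖y‖ ^ d * ((∑ l, A l) * ((∏ i, B i ^ e i) * E)) :=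
        mul_le_mul_of_nonneg_left h3 hd
    _ ≤ (1 + (∑ l, A l) * ∏ i, B i ^ e i) * ‖y‖ ^ d * E := by
        have : 0 ≤ ‖y‖ ^ d * E := mul_nonneg hd hE0
        nlinarith

theorem stBdPH : StBdPH := by
  intro n q T d a e I g hH hg P hP hPs F _ _ _
  obtain ⟨A, hA1, hA⟩ := stBdPC n q T d a e I g hg P hP hPs F
  refine ⟨A, hA1, fun j y hy hI => hA j y hy fun c Q hQ => ?_⟩
  rw [← sum_homogeneousComponent Q, map_sum, map_sum]
  refine Finset.sum_eq_zero fun k _ => ?_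
  rw [eval_smul_hom (homogeneousComponent_isHomogeneous k Q), hI _ (hH Q hQ k), mul_zero]

end Pool.Agent.T9h31.Ft
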